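import Pool.Agent.H81.NCH.Stmts

/-!
# NCH, module RKB: dimension bound for the rank
-/

set_option autoImplicit false

namespace Pool.Agent.H81.NCH

universe u

namespace RKB

theorem rank_le_of_code {K : Type u} [Field K] {ι κ T : Type} [Fintype ι] [Fintype κ] [Fintype T]
    (A : Matrix ι κ K) (code : ι → T) (hc : ∀ i i', code i = code i' → A i = A i') :
    A.rank ≤ Fintype.card T := by
  classical
  rw [Matrix.rank_eq_finrank_span_row]
  have h1 : Set.range A.row = ((Finset.univ.image A : Finset (κ → K)) : Set (κ → K)) := by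
    ext v
    constructor
    · rintro ⟨i, rfl⟩
      exact Finset.mem_coe.mpr (Finset.mem_image.mpr ⟨i, Finset.mem_univ _, rfl⟩)
    · intro hv
      obtain ⟨i, _, hi⟩ := Finset.mem_image.mp (Finset.mem_coe.mp hv)
      exact ⟨i, hi⟩
  rw [h1]
  refine (finrank_span_finset_le_card _).trans ?_
  have hf : Function.FactorsThrough A code := fun i i' h => hc i i' h
  obtain ⟨e, he⟩ := (Function.factorsThrough_iff A).mp hf
  calc (Finset.univ.image A).card = ((Finset.univ.image code).image e).card := by
        rw [Finset.image_image, he]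
    _ ≤ (Finset.univ.image code).card := Finset.card_image_le
    _ ≤ Fintype.card T := Finset.card_le_univ _

/-- a letter as a number less than `m ^ (2 * w)` -/
def cod {n : ℕ} (m w : ℕ) (hm : 1 ≤ m) (x : Fin n) : Fin (m ^ (2 * w)) :=
  if hx : (x : ℕ) < m ^ (2 * w) then ⟨x, hx⟩ else ⟨0, Nat.pow_pos hm⟩

theorem cod_inj_big {n m w : ℕ} (hm : 1 ≤ m) (hn : n = m ^ 4) (hw : 2 ≤ w) (x x' : Fin n)
    (h : cod m w hm x = cod m w hm x') : x = x' := by
  have hle : m ^ 4 ≤ m ^ (2 * w) := Nat.pow_le_pow_right hm (by omega)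
  have hx : (x : ℕ) < m ^ (2 * w) := by have := x.isLt; omega
  have hx' : (x' : ℕ) < m ^ (2 * w) := by have := x'.isLt; omega
  unfold cod at h
  rw [dif_pos hx, dif_pos hx'] at h
  exact Fin.ext (by simpa using h)

theorem cod_inj_one {n m w : ℕ} [NeZero n] (hm : 1 ≤ m) (hw : w = 1) (x x' : Fin n)
    (h : cod m w hm (trunc m x) = cod m w hm (trunc m x')) : trunc m x = trunc m x' := by
  subst hw
  have key : ∀ x : Fin n, ((trunc m x : Fin n) : ℕ) < m ^ (2 * 1) := by
    intro x
    unfold trunc
    split_ifs with hx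
    · simpa using hx
    · simpa using Nat.pow_pos (n := 2) hm
  unfold cod at h
  rw [dif_pos (key x), dif_pos (key x')] at h
  exact Fin.ext (by simpa using h)

theorem card_code (S : Finset ℕ) (m : ℕ) (w : ℕ → ℕ) :
    Fintype.card ((t : S) → Fin (m ^ (2 * w t))) = m ^ (2 * ∑ t ∈ S, w t) := by
  rw [Fintype.card_pi]
  simp only [Fintype.card_fin]
  rw [Finset.prod_coe_sort S (fun t => m ^ (2 * w t)), Finset.prod_pow_eq_pow_sum, Finset.mul_sum]

end RKB

open RKB in
theorem rkb_thm : RKBStmt.{u} := by
  classical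
  intro K _ h m n _ r F S hm hn _ hdep
  constructor
  · unfold rk
    rw [← card_code (S.filter (fun t => 0 < wt h m r t)) m (fun t => (wt h m r t).natAbs)]
    refine rank_le_of_code _
      (fun y t => if wt h m r t = 1 then cod m _ hm (trunc m (ext y t)) else cod m _ hm (ext y t)) ?_
    intro y y' hyy
    funext z
    refine hdep _ _ ?_
    intro t ht
    unfold mixW
    by_cases h0 : 0 < wt h m r t
    · have ht' : t ∈ S.filter (fun t => 0 < wt h m r t) := Finset.mem_filter.mpr ⟨ht, h0⟩
      have hy := congrFun hyy ⟨t, ht'⟩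
      by_cases h1 : wt h m r t = 1
      · have h2 : ¬ (2 ≤ wt h m r t) := by omega
        rw [if_neg h2, if_neg h2, if_pos h1, if_pos h1]
        simp only [h1, if_true] at hy
        exact cod_inj_one hm (by rw [h1]; rfl) _ _ hy
      · have h2 : 2 ≤ wt h m r t := by omega
        simp only [h1, if_false] at hy
        rw [if_pos h2, if_pos h2]
        exact cod_inj_big hm hn (by omega) _ _ hy
    · have h2 : ¬ (2 ≤ wt h m r t) := by omega
      have h1 : ¬ (wt h m r t = 1) := by omega
      rw [if_neg h2, if_neg h2, if_neg h1, if_neg h1]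
  · unfold rk
    rw [← Matrix.rank_transpose]
    rw [← card_code (S.filter (fun t => wt h m r t < 0)) m (fun t => (wt h m r t).natAbs)]
    refine rank_le_of_code _
      (fun y t => if wt h m r t = -1 then cod m _ hm (trunc m (ext y t)) else cod m _ hm (ext y t)) ?_
    intro y y' hyy
    funext z
    refine hdep _ _ ?_
    intro t ht
    unfold mixW
    by_cases h0 : wt h m r t < 0
    · have ht' : t ∈ S.filter (fun t => wt h m r t < 0) := Finset.mem_filter.mpr ⟨ht, h0⟩
      have hy := congrFun hyy ⟨t, ht'⟩
      have h2 : ¬ (2 ≤ wt h m r t) := by omega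
      have h1 : ¬ (wt h m r t = 1) := by omega
      have h3 : ¬ (wt h m r t = 0) := by omega
      rw [if_neg h2, if_neg h2, if_neg h1, if_neg h1, if_neg h3, if_neg h3]
      by_cases h4 : wt h m r t = -1
      · rw [if_pos h4, if_pos h4]
        simp only [h4, if_true] at hy
        exact cod_inj_one hm (by rw [h4]; rfl) _ _ hy
      · simp only [h4, if_false] at hy
        rw [if_neg h4, if_neg h4]
        exact cod_inj_big hm hn (by omega) _ _ hy
    · by_cases h2 : 2 ≤ wt h m r t
      · rw [if_pos h2, if_pos h2]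
      · by_cases h1 : wt h m r t = 1
        · rw [if_neg h2, if_neg h2, if_pos h1, if_pos h1]
        · have h3 : wt h m r t = 0 := by omega
          rw [if_neg h2, if_neg h2, if_neg h1, if_neg h1, if_pos h3, if_pos h3]

end Pool.Agent.H81.NCH
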