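import Pool.Agent.H81.NCH.Stmts

/-!
# NCH, modules RKI and RKO: relative ranks
-/

set_option autoImplicit false

namespace Pool.Agent.H81.NCH

universe u

namespace RKI

theorem wt_sum (h m : ℕ) (r : ℕ → ℕ → ℕ) (a b : ℕ) (hab : a ≤ b) :
    ∑ t ∈ Finset.Ico a b, wt h m r t = psi h m r b - psi h m r a := by
  induction b, hab using Nat.le_induction with
  | base => simp
  | succ b hab ih =>
    rw [Finset.sum_Ico_succ_top hab, ih]
    unfold wt
    ring

theorem split (S : Finset ℕ) (w : ℕ → ℤ) :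
    (∑ t ∈ S, ((w t).natAbs : ℕ)) =
      (∑ t ∈ S with 0 < w t, (w t).natAbs) + ∑ t ∈ S with w t < 0, (w t).natAbs ∧
    ∑ t ∈ S, w t =
      ((∑ t ∈ S with 0 < w t, (w t).natAbs : ℕ) : ℤ) -
        ((∑ t ∈ S with w t < 0, (w t).natAbs : ℕ) : ℤ) := by
  classical
  rw [Finset.sum_filter, Finset.sum_filter]
  constructor
  · rw [← Finset.sum_add_distrib]
    refine Finset.sum_congr rfl fun t _ => ?_
    split_ifs <;> omega
  · rw [Nat.cast_sum, Nat.cast_sum, ← Finset.sum_sub_distrib]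
    refine Finset.sum_congr rfl fun t _ => ?_
    split_ifs <;> omega

end RKI

open RKI in
theorem rki_thm (hRKB : RKBStmt.{u}) : RKIStmt.{u} := by
  classical
  intro K _ h m n _ r F a b hm hn hab hb hdep
  have hS : ∀ t ∈ Finset.Ico a b, t < dd h m := by
    intro t ht
    have := (Finset.mem_Ico.mp ht).2
    omega
  have hdep' : DepOn ((Finset.Ico a b : Finset ℕ) : Set ℕ) F := by
    rw [Finset.coe_Ico]
    exact hdep
  obtain ⟨h1, h2⟩ := hRKB K h m n r F (Finset.Ico a b) hm hn hS hdep'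
  obtain ⟨h3, h4⟩ := split (Finset.Ico a b) (wt h m r)
  rw [wt_sum h m r a b hab] at h4
  set P := ∑ t ∈ Finset.Ico a b with 0 < wt h m r t, (wt h m r t).natAbs with hP
  set Q := ∑ t ∈ Finset.Ico a b with wt h m r t < 0, (wt h m r t).natAbs with hQ
  have h5 : absw h m r a b = P + Q := h3
  have h6 : rk h m r F ≤ m ^ (2 * min P Q) := by
    rcases le_total P Q with hPQ | hPQ
    · rw [min_eq_left hPQ]; exact h1
    · rw [min_eq_right hPQ]; exact h2
  have h7 : 2 * min P Q + (psi h m r b - psi h m r a).natAbs = absw h m r a b := by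
    rw [h4, h5]
    omega
  have hm0 : (0 : ℝ) < m := by exact_mod_cast hm
  have hpos : (0 : ℝ) < (m : ℝ) ^ absw h m r a b := pow_pos hm0 _
  have hmain : rho h m r a b F * (m : ℝ) ^ (psi h m r b - psi h m r a).natAbs ≤ 1 := by
    unfold rho
    rw [div_mul_eq_mul_div, div_le_one hpos, ← h7, pow_add]
    refine mul_le_mul_of_nonneg_right ?_ (by positivity)
    exact_mod_cast h6
  refine ⟨?_, hmain⟩
  have h8 : (1 : ℝ) ≤ (m : ℝ) ^ (psi h m r b - psi h m r a).natAbs :=
    one_le_pow₀ (by exact_mod_cast hm)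
  have h9 : 0 ≤ rho h m r a b F := by
    unfold rho
    positivity
  calc rho h m r a b F = rho h m r a b F * 1 := (mul_one _).symm
    _ ≤ rho h m r a b F * (m : ℝ) ^ (psi h m r b - psi h m r a).natAbs :=
        mul_le_mul_of_nonneg_left h8 h9
    _ ≤ 1 := hmain

open RKI in
theorem rko_thm (hRKM : RKMStmt.{u}) (hRKB : RKBStmt.{u}) : RKOStmt.{u} := by
  classical
  intro K _ h m n _ r F G a a' b' b hm hn haa' ha'b' hb'b hb hdep
  have hS : ∀ t ∈ Finset.Ico a a' ∪ Finset.Ico b' b, t < dd h m := by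
    intro t ht
    rcases Finset.mem_union.mp ht with ht | ht
    · have := (Finset.mem_Ico.mp ht).2
      omega
    · have := (Finset.mem_Ico.mp ht).2
      omega
  have hdep' : DepOn ((Finset.Ico a a' ∪ Finset.Ico b' b : Finset ℕ) : Set ℕ) G := by
    rw [Finset.coe_union, Finset.coe_Ico, Finset.coe_Ico]
    exact hdep
  obtain ⟨h1, h2⟩ := hRKB K h m n r G _ hm hn hS hdep'
  obtain ⟨h3, _⟩ := split (Finset.Ico a a' ∪ Finset.Ico b' b) (wt h m r)
  set P := ∑ t ∈ Finset.Ico a a' ∪ Finset.Ico b' b with 0 < wt h m r t, (wt h m r t).natAbs with hP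
  set Q := ∑ t ∈ Finset.Ico a a' ∪ Finset.Ico b' b with wt h m r t < 0, (wt h m r t).natAbs with hQ
  have h6 : rk h m r G ≤ m ^ (P + Q) := by
    rcases le_total P Q with hPQ | hPQ
    · exact h1.trans (Nat.pow_le_pow_right hm (by omega))
    · exact h2.trans (Nat.pow_le_pow_right hm (by omega))
  have hdisj : Disjoint (Finset.Ico a a') (Finset.Ico b' b) := by
    rw [Finset.disjoint_left]
    intro t ht ht'
    have := (Finset.mem_Ico.mp ht).2
    have := (Finset.mem_Ico.mp ht').1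
    omega
  have h7 : absw h m r a b = (P + Q) + absw h m r a' b' := by
    rw [← h3, Finset.sum_union hdisj]
    unfold absw
    rw [← Finset.sum_Ico_consecutive (fun t => (wt h m r t).natAbs) haa' (ha'b'.trans hb'b),
      ← Finset.sum_Ico_consecutive (fun t => (wt h m r t).natAbs) ha'b' hb'b]
    omega
  have h8 : rk h m r (fun w => G w * F w) ≤ m ^ (P + Q) * rk h m r F :=
    (hRKM K h m n r G F).trans (Nat.mul_le_mul_right _ h6)
  have hm0 : (0 : ℝ) < m := by exact_mod_cast hm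
  unfold rho
  rw [h7, pow_add, div_le_div_iff₀ (by positivity) (by positivity)]
  have h9 : (rk h m r (fun w => G w * F w) : ℝ) ≤ (m : ℝ) ^ (P + Q) * (rk h m r F : ℝ) := by
    exact_mod_cast h8
  calc (rk h m r (fun w => G w * F w) : ℝ) * (m : ℝ) ^ absw h m r a' b'
      ≤ ((m : ℝ) ^ (P + Q) * (rk h m r F : ℝ)) * (m : ℝ) ^ absw h m r a' b' :=
        mul_le_mul_of_nonneg_right h9 (by positivity)
    _ = (rk h m r F : ℝ) * ((m : ℝ) ^ (P + Q) * (m : ℝ) ^ absw h m r a' b') := by ring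

end Pool.Agent.H81.NCH
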