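import Pool.Agent.H81.NCH.Stmts

/-!
# NCH, module RKM: rank of a pointwise product
-/

set_option autoImplicit false

namespace Pool.Agent.H81.NCH

universe u

namespace RKM

theorem rank_hadamard_le {K : Type u} [Field K] {ι κ : Type} [Fintype ι] [Fintype κ]
    (A B : Matrix ι κ K) :
    (Matrix.of fun i j => A i j * B i j).rank ≤ A.rank * B.rank := by
  classical
  rw [Matrix.rank_eq_finrank_span_cols, Matrix.rank_eq_finrank_span_cols A,
    Matrix.rank_eq_finrank_span_cols B]
  set p : Submodule K (ι → K) := Submodule.span K (Set.range A.col) with hp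
  set q : Submodule K (ι → K) := Submodule.span K (Set.range B.col) with hq
  have h1 : Submodule.span K (Set.range (Matrix.of fun i j => A i j * B i j).col) ≤
      LinearMap.range (Submodule.mulMap p q) := by
    rw [Submodule.span_le]
    rintro _ ⟨j, rfl⟩
    refine ⟨(⟨A.col j, Submodule.subset_span ⟨j, rfl⟩⟩ : p) ⊗ₜ[K]
      (⟨B.col j, Submodule.subset_span ⟨j, rfl⟩⟩ : q), ?_⟩
    ext i
    simp [Submodule.mulMap_tmul, Matrix.col]
  calc Module.finrank K (Submodule.span K (Set.range (Matrix.of fun i j => A i j * B i j).col))
      ≤ Module.finrank K (LinearMap.range (Submodule.mulMap p q)) :=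
        Submodule.finrank_mono h1
    _ ≤ Module.finrank K (TensorProduct K p q) := LinearMap.finrank_range_le _
    _ = Module.finrank K p * Module.finrank K q := Module.finrank_tensorProduct

end RKM

theorem rkm_thm : RKMStmt.{u} := by
  intro K _ h m n _ r F G
  exact RKM.rank_hadamard_le
    (Matrix.of fun (y z : Fin (dd h m) → Fin n) => F (mixW h m r (ext y) (ext z)))
    (Matrix.of fun (y z : Fin (dd h m) → Fin n) => G (mixW h m r (ext y) (ext z)))

end Pool.Agent.H81.NCH
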